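import Pool.Agent.Helper22_LLG.Stmt
import Pool.Agent.Helper10_LAG.Uniq
import Pool.Agent.Helper76_LAG.Near

/-!
Squad LLG, module MOO: small sets of the double cover span few edges (Moore bound)
-/

set_option autoImplicit false

namespace Pool.Agent.LLG.H27

open SimpleGraph Pool.Agent.LAG Finset

/-- The Moore bound. -/
theorem moore {W : Type} [Fintype W] (Γ : SimpleGraph W) (d h : ℕ) (hB : Big Γ (2 * h))
    (hdeg : ∀ v, d + 1 ≤ (Γ.neighborSet v).ncard) (v : W) : d ^ h ≤ Fintype.card W := by
  classical
  set S : ℕ → Finset W := fun n => univ.filter fun w => ∃ p : Γ.Walk v w, p.IsPath ∧ p.length = n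
    with hS
  have key : ∀ n, n ≤ h → d ^ n ≤ (S n).card := by
    intro n
    induction n with
    | zero =>
      intro _
      rw [pow_zero]
      refine card_pos.2 ⟨v, ?_⟩
      rw [hS, mem_filter]
      exact ⟨mem_univ _, Walk.nil, Walk.IsPath.nil, rfl⟩
    | succ n ih =>
      intro hn
      have ih := ih (by omega)
      have hp : ∀ w : (S n), ∃ p : Γ.Walk v w, p.IsPath ∧ p.length = n := fun w =>
        (mem_filter.1 w.2).2
      choose p hp1 hp2 using hp
      set N : (S n) → Finset W := fun w => univ.filter fun w' => Γ.Adj w w' ∧ w' ∉ (p w).support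
        with hN
      have hpath : ∀ w : (S n), ∀ w', ∀ (_ : w' ∈ N w), ∃ q : Γ.Walk v w', q.IsPath ∧
          q.length = n + 1 ∧ q.penultimate = w := by
        intro w w' hw'
        obtain ⟨h1, h2⟩ := (mem_filter.1 hw').2
        refine ⟨(p w).concat h1, ?_, ?_, ?_⟩
        · exact (hp1 w).concat h2 h1
        · rw [Walk.length_concat, hp2 w]
        · simp
      have hd : ∀ w : (S n), d ≤ (N w).card := by
        intro w
        have h1 : (univ.filter fun w' => Γ.Adj w w') ⊆ N w ∪ {(p w).penultimate} := by
          intro w' hw'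
          have h2 := (mem_filter.1 hw').2
          rw [mem_union]
          by_cases h3 : w' ∈ (p w).support
          · right
            have h4 : ((p w).dropUntil w' h3).IsPath := (hp1 w).dropUntil h3
            have h5 : (Walk.cons h2.symm Walk.nil : Γ.Walk w' w).IsPath := by
              rw [Walk.isPath_def]
              simp [h2.ne']
            have h6 := LAG.H10.uniq W Γ (2 * h) hB _ _ _ _ h4 h5 (by
              have := (p w).length_dropUntil_le_length h3
              rw [hp2 w] at this
              simp only [Walk.length_cons, Walk.length_nil]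
              omega)
            have h7 := (p w).take_spec h3
            rw [h6] at h7
            rw [mem_singleton, ← h7, ← Walk.concat_eq_append]
            simp
          · left
            exact mem_filter.2 ⟨mem_univ _, h2, h3⟩
        have h2 := card_le_card h1
        have h3 := card_union_le (N w) {(p w).penultimate}
        have h4 := hdeg w
        rw [Set.ncard_eq_toFinset_card'] at h4
        have h5 : (Γ.neighborSet (w : W)).toFinset = univ.filter fun w' => Γ.Adj w w' := by
          ext a
          simp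
        rw [h5] at h4
        rw [card_singleton] at h3
        omega
      have hsub : univ.biUnion N ⊆ S (n + 1) := by
        intro w' hw'
        obtain ⟨w, -, hw⟩ := mem_biUnion.1 hw'
        obtain ⟨q, h1, h2, -⟩ := hpath w w' hw
        exact mem_filter.2 ⟨mem_univ _, q, h1, h2⟩
      have hdisj : ∀ w ∈ (univ : Finset (S n)), ∀ w' ∈ (univ : Finset (S n)), w ≠ w' →
          Disjoint (N w) (N w') := by
        intro w _ w' _ hww
        rw [Finset.disjoint_left]
        intro a ha ha'
        obtain ⟨q, h1, h2, h3⟩ := hpath w a ha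
        obtain ⟨q', h1', h2', h3'⟩ := hpath w' a ha'
        have h6 := LAG.H10.uniq W Γ (2 * h) hB _ _ _ _ h1 h1' (by omega)
        apply hww
        apply Subtype.ext
        rw [← h3, ← h3', h6]
      calc d ^ (n + 1) = d ^ n * d := pow_succ _ _
        _ ≤ (S n).card * d := Nat.mul_le_mul_right _ ih
        _ = ∑ w : (S n), d := by simp
        _ ≤ ∑ w : (S n), (N w).card := sum_le_sum fun w _ => hd w
        _ = (univ.biUnion N).card := (card_biUnion hdisj).symm
        _ ≤ (S (n + 1)).card := card_le_card hsub
  exact (key h le_rfl).trans (card_le_univ _)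

/-- The girth of the double cover. -/
theorem big_dbl {V : Type} (R : SimpleGraph V) (O : V → V → Prop) (g : ℕ)
    (h1 : ∀ x y, O x y → R.Adj x y) (h2 : ∀ x y, O x y → ¬ O y x) (hB : Big R g) :
    Big (dbl O) g := by
  classical
  intro u c hc
  have hadj : ∀ a b, (dbl O).Adj a b → R.Adj (bas a) (bas b) := by
    rintro a b (⟨x, y, rfl, rfl, h⟩ | ⟨x, y, rfl, rfl, h⟩)
    · exact h1 _ _ h
    · exact (h1 _ _ h).symm
  let f : dbl O →g R := ⟨bas, fun {a b} h => hadj a b h⟩
  have hinj : ∀ a b a' b', (dbl O).Adj a b → (dbl O).Adj a' b' → s(bas a, bas b) = s(bas a', bas b') →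
      s(a, b) = s(a', b') := by
    rintro a b a' b' (⟨x, y, rfl, rfl, h⟩ | ⟨x, y, rfl, rfl, h⟩)
      (⟨x', y', rfl, rfl, h'⟩ | ⟨x', y', rfl, rfl, h'⟩) he
    all_goals
      simp only [bas, Sum.elim_inl, Sum.elim_inr, id, Sym2.eq_iff] at he
      rcases he with ⟨rfl, rfl⟩ | ⟨rfl, rfl⟩
      · first | rfl | exact Sym2.eq_swap | exact absurd h' (h2 _ _ h)
      · first | rfl | exact absurd h' (h2 _ _ h) | exact Sym2.eq_swap
  have htr : (c.map f).IsTrail := by
    rw [Walk.isTrail_def, Walk.edges_map]
    refine (List.nodup_map_iff_inj_on hc.edges_nodup).2 ?_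
    intro e he e' he' hee
    have h3 := c.edges_subset_edgeSet he
    have h4 := c.edges_subset_edgeSet he'
    induction e with | _ a b =>
    induction e' with | _ a' b' =>
    exact hinj a b a' b' h3 h4 hee
  have hlen : (c.map f).length = c.length := Walk.length_map _ _
  have hpos : 0 < c.length := by
    have := hc.three_le_length
    omega
  have key : ∀ (x : V) (q : R.Walk x x), q.IsTrail → 0 < q.length → g < q.length := by
    intro x q hq hq0
    cases q with
    | nil => simp at hq0
    | cons h p =>
      have h3 := (Walk.isTrail_cons _ _).1 hq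
      have h4 : (Walk.cons h p.bypass).IsCycle := by
        rw [Walk.cons_isCycle_iff]
        refine ⟨p.bypass_isPath, fun h5 => h3.2 (p.edges_bypass_subset_edges h5)⟩
      have h5 := hB _ _ h4
      have h6 := p.length_bypass_le_length
      rw [Walk.length_cons] at h5 ⊢
      omega
  have := key _ (c.map f) htr (by omega)
  omega

open Classical in
/-- Removal of a vertex. -/
theorem ins_erase {W : Type} (Γ : SimpleGraph W) (K : Finset W) (v : W) :
    ((K ×ˢ K).filter fun e => Γ.Adj e.1 e.2).card ≤
      (((K.erase v) ×ˢ (K.erase v)).filter fun e => Γ.Adj e.1 e.2).card +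
        2 * (K.filter fun w => Γ.Adj v w).card := by
  have h1 : ((K ×ˢ K).filter fun e => Γ.Adj e.1 e.2) ⊆
      ((((K.erase v) ×ˢ (K.erase v)).filter fun e => Γ.Adj e.1 e.2) ∪
        ((K.filter fun w => Γ.Adj v w).image fun w => (v, w))) ∪
        ((K.filter fun w => Γ.Adj v w).image fun w => (w, v)) := by
    rintro ⟨a, b⟩ he
    obtain ⟨h2, h3⟩ := mem_filter.1 he
    obtain ⟨h4, h5⟩ := mem_product.1 h2
    simp only at h3 h4 h5
    by_cases ha : a = v
    · subst ha
      refine mem_union_left _ (mem_union_right _ (mem_image.2 ⟨b, mem_filter.2 ⟨h5, h3⟩, rfl⟩))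
    · by_cases hb : b = v
      · subst hb
        exact mem_union_right _ (mem_image.2 ⟨a, mem_filter.2 ⟨h4, h3.symm⟩, rfl⟩)
      · refine mem_union_left _ (mem_union_left _ (mem_filter.2 ⟨mem_product.2
          ⟨mem_erase.2 ⟨ha, h4⟩, mem_erase.2 ⟨hb, h5⟩⟩, h3⟩))
  have h2 := card_le_card h1
  have h3 := card_union_le ((((K.erase v) ×ˢ (K.erase v)).filter fun e => Γ.Adj e.1 e.2) ∪
        ((K.filter fun w => Γ.Adj v w).image fun w => (v, w)))
        ((K.filter fun w => Γ.Adj v w).image fun w => (w, v))
  have h4 := card_union_le (((K.erase v) ×ˢ (K.erase v)).filter fun e => Γ.Adj e.1 e.2)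
        ((K.filter fun w => Γ.Adj v w).image fun w => (v, w))
  have h5 : ((K.filter fun w => Γ.Adj v w).image fun w => (v, w)).card ≤
    (K.filter fun w => Γ.Adj v w).card := card_image_le
  have h6 : ((K.filter fun w => Γ.Adj v w).image fun w => (w, v)).card ≤
    (K.filter fun w => Γ.Adj v w).card := card_image_le
  omega

open Classical in
/-- A dense set contains a nonempty subset of large minimum degree. -/
theorem core {W : Type} (Γ : SimpleGraph W) (k : ℕ) (K : Finset W)
    (hK : k * K.card < 4 * ((K ×ˢ K).filter fun e => Γ.Adj e.1 e.2).card) :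
    ∃ L : Finset W, L ⊆ K ∧ L.Nonempty ∧ ∀ v ∈ L, k / 8 + 1 ≤ (L.filter fun w => Γ.Adj v w).card := by
  induction hn : K.card using Nat.strong_induction_on generalizing K with
  | _ n ih =>
    by_cases h : ∀ v ∈ K, k / 8 + 1 ≤ (K.filter fun w => Γ.Adj v w).card
    · refine ⟨K, Subset.rfl, ?_, h⟩
      rw [nonempty_iff_ne_empty]
      rintro rfl
      simp at hK
    · push Not at h
      obtain ⟨v, hv, h1⟩ := h
      have h2 := ins_erase Γ K v
      have h3 := card_erase_of_mem hv
      have h4 : 0 < K.card := card_pos.2 ⟨v, hv⟩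
      have h5 : k * (K.erase v).card + k = k * K.card := by
        rw [h3]
        obtain ⟨c, hc⟩ : ∃ c, K.card = c + 1 := ⟨K.card - 1, by omega⟩
        rw [hc, Nat.add_sub_cancel]
        ring
      have h6 : 8 * (k / 8) ≤ k := Nat.mul_div_le k 8
      obtain ⟨L, hL1, hL2, hL3⟩ := ih (K.erase v).card (by omega) (K.erase v) (by omega) rfl
      exact ⟨L, hL1.trans (erase_subset _ _), hL2, hL3⟩

theorem moo : MooStmt := by
  classical
  intro V _ R O k h m h1 h2 hB hk hm K hK
  by_contra hcon
  push Not at hcon
  set K' : Finset (V ⊕ V) := K.toFinset with hK'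
  have hcard : K.ncard = K'.card := Set.ncard_eq_toFinset_card' K
  have hins : ins (dbl O) K = ((K' ×ˢ K').filter fun e => (dbl O).Adj e.1 e.2).card := by
    rw [ins, Set.ncard_eq_toFinset_card']
    congr 1
    ext e
    simp only [Set.mem_toFinset, Set.mem_ofPred_eq, mem_filter, mem_product, hK']
    tauto
  rw [hins, hcard] at hcon
  obtain ⟨L, hL1, ⟨v, hv⟩, hL3⟩ := core (dbl O) k K' hcon
  have hb := big_dbl R O (2 * h) h1 h2 hB
  have hb' : Big ((dbl O).induce (L : Set (V ⊕ V))) (2 * h) := by
    intro u c hc
    let f : (dbl O).induce (L : Set (V ⊕ V)) →g dbl O := ⟨Subtype.val, fun {a b} h => h⟩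
    have h3 : (c.map f).IsCycle := (Walk.isCycle_map_iff_of_injective Subtype.val_injective).2 hc
    have h4 := hb _ _ h3
    rwa [Walk.length_map] at h4
  have h3 := moore ((dbl O).induce (L : Set (V ⊕ V))) (k / 8) h hb' (by
    intro u
    refine (hL3 u.1 u.2).trans ?_
    rw [← Set.ncard_coe_finset]
    have h5 : ((L.filter fun w => (dbl O).Adj u.1 w : Finset (V ⊕ V)) : Set (V ⊕ V)) =
        Subtype.val '' (((dbl O).induce (L : Set (V ⊕ V))).neighborSet u) := by
      ext w
      simp only [coe_filter, Set.mem_ofPred_eq, Set.mem_image, mem_neighborSet, comap_adj,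
        Function.Embedding.subtype_apply, Subtype.exists, exists_and_right, exists_eq_right]
      constructor
      · rintro ⟨h6, h7⟩
        exact ⟨by simpa using h6, h7⟩
      · rintro ⟨h6, h7⟩
        exact ⟨by simpa using h6, h7⟩
    rw [h5]
    exact Set.ncard_image_le (Set.toFinite _)) ⟨v, by simpa using hv⟩
  have h4 : Fintype.card (L : Set (V ⊕ V)) = L.card := by simp
  have h5 := card_le_card hL1
  omega

end Pool.Agent.LLG.H27
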